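import Mathlib

/-!
Definitions and the two general bounds for problem MP_da15bd_co.

`Forces n d m`: every polynomial of degree at most `d` over the field with two elements that
vanishes on all sums of two distinct elements of a set of size at least `m` vanishes at `0`.
`N n d` is the least such `m`.
-/

set_option autoImplicit false

open Finset MvPolynomial

namespace Pool.Agent.Lib.MP_da15bd_co

/-- The forcing property of the problem, for the size `m`: for every `A` in `F_2^n` with
`m ≤ |A|` and every polynomial `p` of total degree at most `d` vanishing at `a + b` for all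
distinct `a, b` in `A`, one has `p(0) = 0`. -/
def Forces (n d m : ℕ) : Prop :=
  ∀ A : Finset (Fin n → ZMod 2), m ≤ A.card →
    ∀ p : MvPolynomial (Fin n) (ZMod 2), p.totalDegree ≤ d →
      (∀ a ∈ A, ∀ b ∈ A, a ≠ b → MvPolynomial.eval (a + b) p = 0) →
        MvPolynomial.eval 0 p = 0

/-- `N n d` is the least `m` with the forcing property. -/
noncomputable def N (n d : ℕ) : ℕ := sInf {m : ℕ | Forces n d m}

lemma Forces.mono {n d m m' : ℕ} (h : Forces n d m) (hm : m ≤ m') : Forces n d m' :=
  fun A hA p hp hv => h A (hm.trans hA) p hp hv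

/-- the square-free monomial function -/
def chi {n : ℕ} (S : Finset (Fin n)) (a : Fin n → ZMod 2) : ZMod 2 := ∏ i ∈ S, a i

lemma zmod2_cases (x : ZMod 2) : x = 0 ∨ x = 1 := by
  revert x; decide

lemma zmod2_pow (x : ZMod 2) (k : ℕ) : x ^ k = if k = 0 then 1 else x := by
  rcases k with _ | k
  · simp
  · rcases zmod2_cases x with h | h <;> simp [h]

lemma expand (n d : ℕ) (p : MvPolynomial (Fin n) (ZMod 2)) (hp : p.totalDegree ≤ d) :
    ∃ (M : Finset ((Fin n ⊕ Fin n) →₀ ℕ)) (c : ((Fin n ⊕ Fin n) →₀ ℕ) → ZMod 2)
      (S T : ((Fin n ⊕ Fin n) →₀ ℕ) → Finset (Fin n)),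
      (∀ m ∈ M, (S m).card + (T m).card ≤ d) ∧
      ∀ a b : Fin n → ZMod 2, eval (a + b) p = ∑ m ∈ M, c m * (chi (S m) a * chi (T m) b) := by
  classical
  set f : Fin n → MvPolynomial (Fin n ⊕ Fin n) (ZMod 2) :=
    fun i => X (Sum.inl i) + X (Sum.inr i) with hf
  set q : MvPolynomial (Fin n ⊕ Fin n) (ZMod 2) := bind₁ f p with hq
  have hqd : q.totalDegree ≤ d := by
    have h1 : q = ∑ m ∈ p.support, C (p.coeff m) * ∏ i, f i ^ m i := by
      rw [hq]
      conv_lhs => rw [bind₁, aeval_def, eval₂_eq']
      rfl
    rw [h1]
    refine (totalDegree_finsetSum_le ?_)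
    intro m hm
    refine (totalDegree_mul _ _).trans ?_
    rw [totalDegree_C, zero_add]
    refine (totalDegree_finsetProd _ _).trans ?_
    have h2 : ∀ i ∈ (univ : Finset (Fin n)), (f i ^ m i).totalDegree ≤ m i := by
      intro i _
      refine (totalDegree_pow _ _).trans ?_
      have h3 : (f i).totalDegree ≤ 1 := by
        refine (totalDegree_add _ _).trans ?_
        simp [totalDegree_X]
      calc m i * (f i).totalDegree ≤ m i * 1 := Nat.mul_le_mul_left _ h3
        _ = m i := mul_one _
    refine (Finset.sum_le_sum h2).trans ?_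
    have h4 : (m.sum fun _ e => e) ≤ p.totalDegree := le_totalDegree hm
    rw [Finsupp.sum_fintype _ _ (by simp)] at h4
    exact h4.trans hp
  refine ⟨q.support, fun m => q.coeff m, fun m => univ.filter (fun i => m (Sum.inl i) ≠ 0),
    fun m => univ.filter (fun i => m (Sum.inr i) ≠ 0), ?_, ?_⟩
  · intro m hm
    have h4 : (m.sum fun _ e => e) ≤ q.totalDegree := le_totalDegree hm
    rw [Finsupp.sum_fintype _ _ (by simp), Fintype.sum_sum_type] at h4
    refine le_trans (add_le_add ?_ ?_) (h4.trans hqd)
    · rw [card_filter]
      refine Finset.sum_le_sum ?_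
      intro i _
      split_ifs with h
      · exact Nat.one_le_iff_ne_zero.mpr h
      · exact Nat.zero_le _
    · rw [card_filter]
      refine Finset.sum_le_sum ?_
      intro i _
      split_ifs with h
      · exact Nat.one_le_iff_ne_zero.mpr h
      · exact Nat.zero_le _
  · intro a b
    have h5 : eval (a + b) p = eval (Sum.elim a b) q := by
      rw [hq]
      have h6 : aeval (Sum.elim a b) (bind₁ f p) = aeval (fun i => aeval (Sum.elim a b) (f i)) p :=
        aeval_bind₁ _ _ _
      simp only [aeval_eq_eval] at h6
      rw [h6]
      congr 2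
      funext i
      simp [hf]
    rw [h5, eval_eq']
    refine Finset.sum_congr rfl ?_
    intro m _
    congr 1
    rw [Fintype.prod_sum_type]
    congr 1
    · unfold chi
      rw [Finset.prod_filter]
      refine Finset.prod_congr rfl ?_
      intro i _
      rw [zmod2_pow]
      by_cases h : m (Sum.inl i) = 0 <;> simp [h]
    · unfold chi
      rw [Finset.prod_filter]
      refine Finset.prod_congr rfl ?_
      intro i _
      rw [zmod2_pow]
      by_cases h : m (Sum.inr i) = 0 <;> simp [h]

/-- the number of subsets of size less than `k` -/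
lemma card_small (n k : ℕ) :
    ((univ : Finset (Finset (Fin n))).filter (fun U => U.card < k)).card =
      ∑ i ∈ range k, n.choose i := by
  classical
  have h : ((univ : Finset (Finset (Fin n))).filter (fun U => U.card < k)) =
      (range k).biUnion (fun i => powersetCard i (univ : Finset (Fin n))) := by
    ext U
    simp
  rw [h, card_biUnion]
  · simp
  · intro i _ j _ hij
    exact pairwise_disjoint_powersetCard _ hij

/-- Croot-Lev-Pach type upper bound. -/
theorem forces_of_lt (n d m : ℕ)
    (hm : (∑ i ∈ range (d / 2 + 1), n.choose i) + (∑ i ∈ range ((d + 1) / 2), n.choose i) < m) :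
    Forces n d m := by
  classical
  intro A hA p hp hvan
  by_contra h0
  have h1 : eval 0 p = 1 := (zmod2_cases _).resolve_left h0
  obtain ⟨M, c, S, T, hST, hexp⟩ := expand n d p hp
  let G : Finset (Fin n) → (A → ZMod 2) := fun U b =>
    ∑ m ∈ M with S m = U, c m * chi (T m) b
  let H : Finset (Fin n) → (A → ZMod 2) := fun U b => chi U b
  let s1 : Finset (Finset (Fin n)) := univ.filter (fun U => U.card < d / 2 + 1)
  let s2 : Finset (Finset (Fin n)) := univ.filter (fun U => U.card < (d + 1) / 2)
  let B : Finset (A → ZMod 2) := s1.image G ∪ s2.image H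
  have hspan : ∀ a : A, (Pi.single a 1 : A → ZMod 2) ∈ Submodule.span (ZMod 2) (B : Set (A → ZMod 2)) := by
    intro a
    have e1 : (Pi.single a 1 : A → ZMod 2) =
        (∑ U ∈ s1, chi U (a : Fin n → ZMod 2) • G U) +
        ∑ m ∈ M with ¬ (S m).card < d / 2 + 1,
          (c m * chi (S m) (a : Fin n → ZMod 2)) • H (T m) := by
      funext b
      have e2 : (Pi.single a 1 : A → ZMod 2) b =
          eval ((a : Fin n → ZMod 2) + (b : Fin n → ZMod 2)) p := by
        by_cases hab : b = a
        · subst hab
          have : ((b : Fin n → ZMod 2) + (b : Fin n → ZMod 2)) = 0 := by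
            funext i
            exact CharTwo.add_self_eq_zero _
          rw [this, h1]
          simp
        · rw [Pi.single_eq_of_ne hab]
          refine (hvan a a.2 b b.2 ?_).symm
          intro h
          exact hab (Subtype.ext h.symm)
      rw [e2, hexp, ← Finset.sum_filter_add_sum_filter_not M (fun m => (S m).card < d / 2 + 1)]
      rw [Pi.add_apply]
      congr 1
      · rw [Finset.sum_apply]
        simp only [Pi.smul_apply, smul_eq_mul, G]
        have e3 : ∀ U ∈ s1, chi U (a : Fin n → ZMod 2) *
            ∑ m ∈ M with S m = U, c m * chi (T m) (b : Fin n → ZMod 2) =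
            ∑ m ∈ (M.filter (fun m => (S m).card < d / 2 + 1)) with S m = U,
              c m * (chi (S m) (a : Fin n → ZMod 2) * chi (T m) (b : Fin n → ZMod 2)) := by
          intro U hU
          rw [Finset.mul_sum]
          have e4 : (M.filter (fun m => (S m).card < d / 2 + 1)).filter (fun m => S m = U) =
              M.filter (fun m => S m = U) := by
            ext m
            simp only [mem_filter]
            constructor
            · rintro ⟨⟨h1, _⟩, h3⟩
              exact ⟨h1, h3⟩
            · rintro ⟨h1, h3⟩
              refine ⟨⟨h1, ?_⟩, h3⟩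
              rw [h3]
              exact (mem_filter.mp hU).2
          rw [e4]
          refine Finset.sum_congr rfl ?_
          intro m hm
          rw [(mem_filter.mp hm).2]
          ring
        rw [Finset.sum_congr rfl e3]
        symm
        refine Finset.sum_fiberwise_of_maps_to ?_ _
        intro m hm
        exact mem_filter.mpr ⟨mem_univ _, (mem_filter.mp hm).2⟩
      · rw [Finset.sum_apply]
        refine Finset.sum_congr rfl ?_
        intro m _
        simp only [Pi.smul_apply, smul_eq_mul, H]
        ring
    rw [e1]
    refine Submodule.add_mem _ ?_ ?_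
    · refine Submodule.sum_mem _ ?_
      intro U hU
      refine Submodule.smul_mem _ _ (Submodule.subset_span ?_)
      simp only [B, coe_union, coe_image, Set.mem_union, Set.mem_image, mem_coe]
      exact Or.inl ⟨U, hU, rfl⟩
    · refine Submodule.sum_mem _ ?_
      intro m hm
      refine Submodule.smul_mem _ _ (Submodule.subset_span ?_)
      simp only [B, coe_union, coe_image, Set.mem_union, Set.mem_image, mem_coe]
      refine Or.inr ⟨T m, ?_, rfl⟩
      have h3 := hST m (mem_filter.mp hm).1
      have h4 := (mem_filter.mp hm).2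
      refine mem_filter.mpr ⟨mem_univ _, ?_⟩
      omega
  have htop : Submodule.span (ZMod 2) (B : Set (A → ZMod 2)) = ⊤ := by
    rw [eq_top_iff]
    intro f _
    have : f = ∑ a : A, f a • (Pi.single a 1 : A → ZMod 2) := by
      funext b
      simp [Finset.sum_apply, Pi.single_apply]
    rw [this]
    exact Submodule.sum_mem _ (fun a _ => Submodule.smul_mem _ _ (hspan a))
  have hfin : Module.finrank (ZMod 2) (A → ZMod 2) ≤ B.card := by
    have := finrank_span_finset_le_card (R := ZMod 2) B
    unfold Set.finrank at this
    rw [htop, finrank_top] at this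
    exact this
  rw [Module.finrank_fintype_fun_eq_card, Fintype.card_coe] at hfin
  have hB : B.card ≤ s1.card + s2.card :=
    (card_union_le _ _).trans (add_le_add card_image_le card_image_le)
  have hs1 : s1.card = ∑ i ∈ range (d / 2 + 1), n.choose i := card_small n _
  have hs2 : s2.card = ∑ i ∈ range ((d + 1) / 2), n.choose i := card_small n _
  omega

/-- support of a vector -/
def supp {n : ℕ} (x : Fin n → ZMod 2) : Finset (Fin n) := univ.filter (fun i => x i ≠ 0)

lemma supp_add {n : ℕ} (x y : Fin n → ZMod 2) :
    (supp (x + y)) ⊆ supp x ∪ supp y := by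
  classical
  intro i hi
  simp only [supp, mem_filter, mem_univ, true_and, mem_union, Pi.add_apply] at hi ⊢
  by_contra h
  push Not at h
  exact hi (by rw [h.1, h.2, add_zero])

/-- the sum of all square-free monomials of degree at most `d` -/
noncomputable def witness (n d : ℕ) : MvPolynomial (Fin n) (ZMod 2) :=
  ∑ U ∈ (univ : Finset (Finset (Fin n))) with U.card ≤ d, ∏ i ∈ U, X i

lemma witness_totalDegree (n d : ℕ) : (witness n d).totalDegree ≤ d := by
  refine totalDegree_finsetSum_le ?_
  intro U hU
  refine (totalDegree_finsetProd _ _).trans ?_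
  simp only [totalDegree_X, sum_const, smul_eq_mul, mul_one]
  exact (mem_filter.mp hU).2

lemma witness_eval (n d : ℕ) (x : Fin n → ZMod 2) (hx : (supp x).card ≤ d) :
    eval x (witness n d) = 2 ^ (supp x).card := by
  classical
  unfold witness
  rw [map_sum]
  have h1 : ∀ U ∈ (univ : Finset (Finset (Fin n))).filter (fun U => U.card ≤ d),
      eval x (∏ i ∈ U, X i) = if U ⊆ supp x then (1 : ZMod 2) else 0 := by
    intro U _
    rw [map_prod]
    simp only [eval_X]
    split_ifs with h
    · refine Finset.prod_eq_one ?_
      intro i hi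
      have := h hi
      simp only [supp, mem_filter, mem_univ, true_and] at this
      exact (zmod2_cases _).resolve_left this
    · rw [Finset.not_subset] at h
      obtain ⟨i, hi, hi2⟩ := h
      refine Finset.prod_eq_zero hi ?_
      simpa [supp] using hi2
  rw [Finset.sum_congr rfl h1, ← Finset.sum_filter, Finset.filter_filter]
  have h2 : (univ : Finset (Finset (Fin n))).filter (fun U => U.card ≤ d ∧ U ⊆ supp x) =
      (supp x).powerset := by
    ext U
    simp only [mem_filter, mem_univ, true_and, mem_powerset]
    constructor
    · exact fun h => h.2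
    · exact fun h => ⟨(card_le_card h).trans hx, h⟩
  rw [h2]
  simp

lemma supp_eq_empty {n : ℕ} (x : Fin n → ZMod 2) (h : (supp x).card = 0) : x = 0 := by
  rw [card_eq_zero] at h
  funext i
  by_contra hi
  have : i ∈ supp x := by simpa [supp] using hi
  rw [h] at this
  simp at this

/-- a set of diameter at most `d` does not force -/
theorem not_forces_of_diam (n d : ℕ) (A : Finset (Fin n → ZMod 2))
    (hA : ∀ a ∈ A, ∀ b ∈ A, (supp (a + b)).card ≤ d) : ¬ Forces n d A.card := by
  intro h
  have h1 := h A le_rfl (witness n d) (witness_totalDegree n d) ?_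
  · rw [witness_eval n d 0 (by simp [supp])] at h1
    simp [supp] at h1
  · intro a ha b hb hab
    rw [witness_eval n d _ (hA a ha b hb)]
    have h2 : (supp (a + b)).card ≠ 0 := by
      intro h3
      have h4 := supp_eq_empty _ h3
      apply hab
      funext i
      have h5 := congrFun h4 i
      simp only [Pi.add_apply, Pi.zero_apply] at h5
      have h6 : a i - b i = 0 := by
        rw [CharTwo.sub_eq_add]
        exact h5
      exact sub_eq_zero.mp h6
    have h3 : (2 : ZMod 2) = 0 := by decide
    rw [h3, zero_pow h2]

theorem lt_N_of_not_forces {n d m : ℕ} (h : ¬ Forces n d m) : m < N n d := by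
  have hne : {m : ℕ | Forces n d m}.Nonempty := ⟨_, forces_of_lt n d _ (Nat.lt_succ_self _)⟩
  have h1 : Forces n d (N n d) := Nat.sInf_mem hne
  by_contra h2
  exact h (h1.mono (not_lt.mp h2))

theorem N_le_of_forces {n d m : ℕ} (h : Forces n d m) : N n d ≤ m := Nat.sInf_le h

/-- `N n d` really is the least element of the set of forcing sizes. -/
theorem N_isLeast (n d : ℕ) : IsLeast {m : ℕ | Forces n d m} (N n d) :=
  ⟨Nat.sInf_mem ⟨_, forces_of_lt n d _ (Nat.lt_succ_self _)⟩, fun _ hm => Nat.sInf_le hm⟩

end Pool.Agent.Lib.MP_da15bd_co
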