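import Pool.Agent.Lib.MP_da15bd_co.Basic

/-!
Lower bounds for `N n d` from Hamming balls, and binomial sum estimates.
-/

set_option autoImplicit false

open Finset MvPolynomial

namespace Pool.Agent.Lib.MP_da15bd_co

/-- indicator vector of a set -/
def ind {n : ℕ} (U : Finset (Fin n)) : Fin n → ZMod 2 := fun i => if i ∈ U then 1 else 0

lemma supp_ind {n : ℕ} (U : Finset (Fin n)) : supp (ind U) = U := by
  ext i
  simp [supp, ind]

lemma ind_injective {n : ℕ} : Function.Injective (ind : Finset (Fin n) → Fin n → ZMod 2) := by
  intro U W h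
  rw [← supp_ind U, ← supp_ind W, h]

/-- Hamming balls of radius `k` have diameter at most `2 * k`. -/
theorem lower_even (n k : ℕ) : (∑ i ∈ range (k + 1), n.choose i) < N n (2 * k) := by
  classical
  apply lt_N_of_not_forces
  let s : Finset (Finset (Fin n)) := univ.filter (fun U => U.card < k + 1)
  have hs : s.card = ∑ i ∈ range (k + 1), n.choose i := card_small n _
  have hA : (s.image ind).card = ∑ i ∈ range (k + 1), n.choose i := by
    rw [card_image_of_injective _ ind_injective, hs]
  rw [← hA]
  apply not_forces_of_diam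
  intro a ha b hb
  rw [mem_image] at ha hb
  obtain ⟨U, hU, rfl⟩ := ha
  obtain ⟨W, hW, rfl⟩ := hb
  have h1 := card_le_card (supp_add (ind U) (ind W))
  rw [supp_ind, supp_ind] at h1
  have h2 := card_union_le U W
  have h3 := (mem_filter.mp hU).2
  have h4 := (mem_filter.mp hW).2
  omega

/-- Products of a Hamming ball of radius `k` with one more coordinate have diameter at
most `2 * k + 1`. -/
theorem lower_odd (n k : ℕ) :
    2 * (∑ i ∈ range (k + 1), n.choose i) < N (n + 1) (2 * k + 1) := by
  classical
  apply lt_N_of_not_forces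
  let s : Finset (Finset (Fin n)) := univ.filter (fun U => U.card < k + 1)
  have hs : s.card = ∑ i ∈ range (k + 1), n.choose i := card_small n _
  let F : ZMod 2 × Finset (Fin n) → (Fin (n + 1) → ZMod 2) :=
    fun x => (Fin.cons x.1 (ind x.2) : Fin (n + 1) → ZMod 2)
  have hF : Function.Injective F := by
    rintro ⟨x, U⟩ ⟨y, W⟩ h
    have h1 := Fin.cons_injective2 h
    exact Prod.ext h1.1 (ind_injective h1.2)
  have hA : (((univ : Finset (ZMod 2)) ×ˢ s).image F).card =
      2 * ∑ i ∈ range (k + 1), n.choose i := by
    rw [card_image_of_injective _ hF, card_product, hs]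
    simp [ZMod.card]
  rw [← hA]
  apply not_forces_of_diam
  intro a ha b hb
  rw [mem_image] at ha hb
  obtain ⟨⟨x, U⟩, hU, rfl⟩ := ha
  obtain ⟨⟨y, W⟩, hW, rfl⟩ := hb
  have h0 : supp (F (x, U) + F (y, W)) ⊆ insert 0 ((U ∪ W).map (Fin.succEmb n)) := by
    intro i hi
    refine Fin.cases ?_ (fun j => ?_) i (motive := fun i =>
      i ∈ supp (F (x, U) + F (y, W)) → i ∈ insert 0 ((U ∪ W).map (Fin.succEmb n))) hi
    · intro _
      exact mem_insert_self _ _
    · intro hj
      rw [mem_insert]
      right
      rw [mem_map]
      refine ⟨j, ?_, rfl⟩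
      have h1 : j ∈ supp (ind U + ind W) := by
        simpa [supp, F] using hj
      have h2 := supp_add (ind U) (ind W) h1
      rwa [supp_ind, supp_ind] at h2
  have h1 := card_le_card h0
  have h2 := card_insert_le (0 : Fin (n + 1)) ((U ∪ W).map (Fin.succEmb n))
  rw [card_map] at h2
  have h5 := card_union_le U W
  have h3 := (mem_filter.mp (mem_product.mp hU).2).2
  have h4 := (mem_filter.mp (mem_product.mp hW).2).2
  simp only at h3 h4
  omega

/-- Pascal: the binomial sum of row `n + 1` is at most twice that of row `n`. -/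
lemma sum_choose_succ_le (n k : ℕ) :
    (∑ i ∈ range (k + 1), (n + 1).choose i) ≤ 2 * ∑ i ∈ range (k + 1), n.choose i := by
  induction k with
  | zero => simp
  | succ k ih =>
    rw [sum_range_succ, sum_range_succ (fun i => n.choose i) (k + 1)]
    have h : (∑ i ∈ range (k + 1), (n + 1).choose i) =
        (∑ i ∈ range (k + 1), n.choose i) + ∑ i ∈ range k, n.choose i := by
      clear ih
      induction k with
      | zero => simp
      | succ k ih =>
        rw [sum_range_succ, ih, sum_range_succ (fun i => n.choose i) (k + 1),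
          sum_range_succ (fun i => n.choose i) k, Nat.choose_succ_succ' n k]
        ring
    rw [h, Nat.choose_succ_succ' n k]
    rw [sum_range_succ (fun i => n.choose i) k]
    omega

/-- For `4 * k ≤ n` the binomial sum is at most `3 / 2` times its last term. -/
lemma two_mul_sum_le (n k : ℕ) (h : 4 * k ≤ n) :
    2 * (∑ i ∈ range (k + 1), n.choose i) ≤ 3 * n.choose k := by
  induction k with
  | zero => simp
  | succ k ih =>
    rw [sum_range_succ]
    have h1 := ih (by omega)
    have h2 : 3 * n.choose k ≤ n.choose (k + 1) := by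
      have h3 := Nat.choose_succ_right_eq n k
      have h4 : 3 * (k + 1) ≤ n - k := by omega
      have h5 : n.choose k * (3 * (k + 1)) ≤ n.choose (k + 1) * (k + 1) := by
        rw [h3]
        exact Nat.mul_le_mul_left _ h4
      have h6 : (3 * n.choose k) * (k + 1) ≤ n.choose (k + 1) * (k + 1) := by
        calc (3 * n.choose k) * (k + 1) = n.choose k * (3 * (k + 1)) := by ring
          _ ≤ _ := h5
      exact Nat.le_of_mul_le_mul_right h6 (Nat.succ_pos k)
    omega

end Pool.Agent.Lib.MP_da15bd_co
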