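import Pool.Agent.Lib.MP_da15bd_co.Basic
import Pool.Agent.Lib.MP_da15bd_co.Lower

/-!
The rank bound is attained for infinitely many `n` in every degree: two antipodal balls.
-/

set_option autoImplicit false

open Finset MvPolynomial

namespace Pool.Agent.Lib.MP_da15bd_co

/-- value of the witness polynomial in terms of the weight -/
lemma witness_eval_general (n d : ℕ) (x : Fin n → ZMod 2) :
    eval x (witness n d) = ((∑ j ∈ range (d + 1), (supp x).card.choose j : ℕ) : ZMod 2) := by
  classical
  unfold witness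
  rw [map_sum]
  have h1 : ∀ U ∈ (univ : Finset (Finset (Fin n))).filter (fun U => U.card ≤ d),
      eval x (∏ i ∈ U, X i) = if U ⊆ supp x then (1 : ZMod 2) else 0 := by
    intro U _
    rw [map_prod]
    simp only [eval_X]
    split_ifs with h
    · refine Finset.prod_eq_one ?_
      intro i hi
      have := h hi
      simp only [supp, mem_filter, mem_univ, true_and] at this
      exact (zmod2_cases _).resolve_left this
    · rw [Finset.not_subset] at h
      obtain ⟨i, hi, hi2⟩ := h
      refine Finset.prod_eq_zero hi ?_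
      simpa [supp] using hi2
  rw [Finset.sum_congr rfl h1, ← Finset.sum_filter, Finset.filter_filter]
  have h2 : (univ : Finset (Finset (Fin n))).filter (fun U => U.card ≤ d ∧ U ⊆ supp x) =
      (range (d + 1)).biUnion (fun i => powersetCard i (supp x)) := by
    ext U
    simp only [mem_filter, mem_univ, true_and, mem_biUnion, mem_range, mem_powersetCard]
    constructor
    · rintro ⟨h3, h4⟩
      exact ⟨U.card, by omega, h4, rfl⟩
    · rintro ⟨i, hi, h4, rfl⟩
      exact ⟨by omega, h4⟩
  rw [h2, Finset.sum_const, card_biUnion]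
  · simp
  · intro i _ j _ hij
    exact pairwise_disjoint_powersetCard _ hij

lemma choose_mod_two (s q r j : ℕ) (hj : j < 2 ^ s) :
    (2 ^ s * q + r).choose j ≡ r.choose j [MOD 2] := by
  induction s generalizing r j with
  | zero =>
    have : j = 0 := by simpa using hj
    subst this
    simp [Nat.ModEq]
  | succ s ih =>
    have : Fact (Nat.Prime 2) := ⟨Nat.prime_two⟩
    have h1 := Choose.choose_modEq_choose_mod_mul_choose_div_nat (n := 2 ^ (s + 1) * q + r)
      (k := j) (p := 2)
    have h2 := Choose.choose_modEq_choose_mod_mul_choose_div_nat (n := r) (k := j) (p := 2)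
    have e1 : 2 ^ (s + 1) * q + r = r + 2 * (2 ^ s * q) := by ring
    have h3 : (2 ^ (s + 1) * q + r) % 2 = r % 2 := by
      rw [e1, Nat.add_mul_mod_self_left]
    have h4 : (2 ^ (s + 1) * q + r) / 2 = 2 ^ s * q + r / 2 := by
      rw [e1, Nat.add_mul_div_left _ _ (by norm_num)]
      ring
    rw [h3, h4] at h1
    have h5 : j / 2 < 2 ^ s := by
      rw [pow_succ] at hj
      omega
    have h6 := (ih (r / 2) (j / 2) h5).mul_left ((r % 2).choose (j % 2))
    exact h1.trans (h6.trans h2.symm)

lemma sum_choose_even (s q r d : ℕ) (hd : d < 2 ^ s) (hr1 : 1 ≤ r) (hr2 : r ≤ d) :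
    ((∑ j ∈ range (d + 1), (2 ^ s * q + r).choose j : ℕ) : ZMod 2) = 0 := by
  have h1 : ((∑ j ∈ range (d + 1), (2 ^ s * q + r).choose j : ℕ) : ZMod 2) =
      ((∑ j ∈ range (d + 1), r.choose j : ℕ) : ZMod 2) := by
    push_cast
    refine Finset.sum_congr rfl ?_
    intro j hj
    have hj' : j < 2 ^ s := lt_of_le_of_lt (Nat.lt_succ_iff.mp (mem_range.mp hj)) hd
    exact (ZMod.natCast_eq_natCast_iff _ _ _).mpr (choose_mod_two s q r j hj')
  rw [h1]
  have h2 : (∑ j ∈ range (d + 1), r.choose j) = 2 ^ r := by
    rw [← Nat.sum_range_choose r]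
    symm
    refine Finset.sum_subset ?_ ?_
    · intro j hj
      rw [mem_range] at hj ⊢
      omega
    · intro j _ hj
      rw [mem_range, not_lt] at hj
      exact Nat.choose_eq_zero_of_lt (by omega)
  rw [h2]
  push_cast
  have h3 : (2 : ZMod 2) = 0 := by decide
  rw [h3, zero_pow (by omega)]

theorem not_forces_of_witness (n d : ℕ) (A : Finset (Fin n → ZMod 2))
    (hA : ∀ a ∈ A, ∀ b ∈ A, a ≠ b → eval (a + b) (witness n d) = 0) : ¬ Forces n d A.card := by
  intro h
  have h1 := h A le_rfl (witness n d) (witness_totalDegree n d) hA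
  rw [witness_eval n d 0 (by simp [supp])] at h1
  simp [supp] at h1

lemma supp_ind_add {n : ℕ} (U W : Finset (Fin n)) :
    supp (ind U + ind W) = symmDiff U W := by
  ext i
  have hmem : i ∈ supp (ind U + ind W) ↔ (ind U + ind W) i ≠ 0 := by simp [supp]
  rw [hmem, mem_symmDiff, Pi.add_apply]
  unfold ind
  by_cases h1 : i ∈ U <;> by_cases h2 : i ∈ W <;> simp [h1, h2, CharTwo.add_self_eq_zero]

lemma card_symmDiff_le {n : ℕ} (U W : Finset (Fin n)) :
    (symmDiff U W).card ≤ U.card + W.card := by
  classical
  refine (card_le_card (t := U ∪ W) ?_).trans (card_union_le _ _)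
  intro i hi
  rw [mem_symmDiff] at hi
  rw [mem_union]
  tauto

lemma le_card_symmDiff {n : ℕ} (U W : Finset (Fin n)) :
    W.card ≤ (symmDiff U W).card + U.card := by
  classical
  refine (card_le_card (t := symmDiff U W ∪ U) ?_).trans (card_union_le _ _)
  intro i hi
  rw [mem_union, mem_symmDiff]
  tauto

/-- The set family: all sets of size at most `k`, and all sets whose complement has size less
than `k`. -/
def caps (n k : ℕ) : Finset (Finset (Fin n)) :=
  univ.filter (fun U => U.card < k + 1 ∨ Uᶜ.card < k)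

lemma card_caps (n k : ℕ) (h : 2 * k ≤ n) :
    (caps n k).card = (∑ i ∈ range (k + 1), n.choose i) + ∑ i ∈ range k, n.choose i := by
  classical
  unfold caps
  rw [filter_or, card_union_of_disjoint, card_small]
  · congr 1
    rw [← card_small]
    refine Finset.card_bij (fun U _ => Uᶜ) ?_ ?_ ?_
    · intro U hU
      simpa using hU
    · intro U _ W _ h
      exact compl_injective h
    · intro U hU
      refine ⟨Uᶜ, ?_, compl_compl U⟩
      simpa using hU
  · rw [Finset.disjoint_filter]
    intro U _ h1 h2
    have h3 := card_compl U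
    have h4 := card_le_univ U
    simp only [Fintype.card_fin] at h3 h4
    omega

lemma caps_weight (n k : ℕ) (U W : Finset (Fin n)) (hU : U ∈ caps n k) (hW : W ∈ caps n k)
    (hUW : U ≠ W) :
    (1 ≤ (symmDiff U W).card ∧ (symmDiff U W).card ≤ 2 * k) ∨
      (n < (symmDiff U W).card + 2 * k ∧ (symmDiff U W).card ≤ n) := by
  classical
  have h0 : 1 ≤ (symmDiff U W).card := by
    rw [Nat.one_le_iff_ne_zero, Ne, card_eq_zero]
    intro h
    exact hUW (symmDiff_eq_bot.mp h)
  have hn : (symmDiff U W).card ≤ n := by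
    have := card_le_univ (symmDiff U W)
    simpa using this
  have hcU := card_compl U
  have hcW := card_compl W
  have hlU := card_le_univ U
  have hlW := card_le_univ W
  simp only [Fintype.card_fin] at hcU hcW hlU hlW
  have h1 := (mem_filter.mp hU).2
  have h2 := (mem_filter.mp hW).2
  rcases h1 with h1 | h1 <;> rcases h2 with h2 | h2
  · left
    have := card_symmDiff_le U W
    omega
  · right
    have := le_card_symmDiff U W
    omega
  · right
    have := le_card_symmDiff W U
    rw [symmDiff_comm] at this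
    omega
  · left
    have h3 := card_symmDiff_le Uᶜ Wᶜ
    have h4 : symmDiff Uᶜ Wᶜ = symmDiff U W := by
      ext i
      simp only [mem_symmDiff, mem_compl]
      tauto
    rw [h4] at h3
    omega

theorem exact_even (n k s : ℕ) (hs : 2 * k < 2 ^ s) (hn : 2 * k < n)
    (hmod : n ≡ 2 * k [MOD 2 ^ s]) :
    ¬ Forces n (2 * k) ((∑ i ∈ range (k + 1), n.choose i) + ∑ i ∈ range k, n.choose i) := by
  classical
  obtain ⟨q, hq⟩ : ∃ q, n = 2 ^ s * q + 2 * k := by
    have h1 : 2 ^ s ∣ n - 2 * k := (Nat.modEq_iff_dvd' hn.le).mp hmod.symm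
    obtain ⟨q, hq⟩ := h1
    exact ⟨q, by omega⟩
  rw [← card_caps n k hn.le, ← card_image_of_injective (caps n k) ind_injective]
  apply not_forces_of_witness
  intro a ha b hb hab
  rw [mem_image] at ha hb
  obtain ⟨U, hU, rfl⟩ := ha
  obtain ⟨W, hW, rfl⟩ := hb
  have hUW : U ≠ W := fun h => hab (by rw [h])
  rw [witness_eval_general, supp_ind_add]
  rcases caps_weight n k U W hU hW hUW with h | h
  · have h1 := sum_choose_even s 0 (symmDiff U W).card (2 * k) hs h.1 h.2
    simpa using h1
  · have h1 := sum_choose_even s q ((symmDiff U W).card - 2 ^ s * q) (2 * k) hs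
      (by omega) (by omega)
    have h2 : 2 ^ s * q + ((symmDiff U W).card - 2 ^ s * q) = (symmDiff U W).card := by omega
    rw [h2] at h1
    exact h1

lemma one_add_add_eq_zero : ∀ x y : ZMod 2, x ≠ y → 1 + (x + y) = 0 := by
  decide

/-- Doubling: adding one coordinate and one degree doubles the size of a non-forcing set. -/
theorem not_forces_double {n d m : ℕ} (h : ¬ Forces n d m) : ¬ Forces (n + 1) (d + 1) (2 * m) := by
  classical
  intro hf
  apply h
  intro A hA p hp hvan
  by_contra h0
  let F : ZMod 2 × (Fin n → ZMod 2) → (Fin (n + 1) → ZMod 2) :=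
    fun x => (Fin.cons x.1 x.2 : Fin (n + 1) → ZMod 2)
  have hF : Function.Injective F := by
    rintro ⟨x, u⟩ ⟨y, w⟩ h
    have h1 := Fin.cons_injective2 h
    exact Prod.ext h1.1 h1.2
  have hcard : (((univ : Finset (ZMod 2)) ×ˢ A).image F).card = 2 * A.card := by
    rw [card_image_of_injective _ hF, card_product]
    simp [ZMod.card]
  let q : MvPolynomial (Fin (n + 1)) (ZMod 2) := (1 + X 0) * rename Fin.succ p
  have hq : q.totalDegree ≤ d + 1 := by
    refine (totalDegree_mul _ _).trans ?_
    rw [add_comm d 1]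
    refine add_le_add ?_ ((totalDegree_rename_le _ _).trans hp)
    refine (totalDegree_add _ _).trans ?_
    simp [totalDegree_X]
  have heval : ∀ v : Fin (n + 1) → ZMod 2, eval v q = (1 + v 0) * eval (v ∘ Fin.succ) p := by
    intro v
    simp only [q, map_mul, map_add, map_one, eval_X, eval_rename]
  have h1 := hf (((univ : Finset (ZMod 2)) ×ˢ A).image F) (by rw [hcard]; omega) q hq ?_
  · rw [heval] at h1
    have h2 : ((0 : Fin (n + 1) → ZMod 2) ∘ Fin.succ) = 0 := rfl
    rw [h2] at h1
    simp only [Pi.zero_apply, add_zero, one_mul] at h1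
    exact h0 h1
  · intro a ha b hb hab
    rw [mem_image] at ha hb
    obtain ⟨⟨x, u⟩, hu, rfl⟩ := ha
    obtain ⟨⟨y, w⟩, hw, rfl⟩ := hb
    rw [heval]
    have h2 : ((F (x, u) + F (y, w)) ∘ Fin.succ) = u + w := by
      funext i
      simp [F]
    have h3 : (F (x, u) + F (y, w)) 0 = x + y := by
      simp [F]
    rw [h2, h3]
    by_cases huw : u = w
    · subst huw
      have hxy : x ≠ y := fun h => hab (by rw [h])
      rw [one_add_add_eq_zero x y hxy, zero_mul]
    · rw [hvan u (mem_product.mp hu).2 w (mem_product.mp hw).2 huw, mul_zero]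

lemma pascal_sum (n k : ℕ) :
    (∑ i ∈ range (k + 1), (n + 1).choose i) =
      (∑ i ∈ range (k + 1), n.choose i) + ∑ i ∈ range k, n.choose i := by
  induction k with
  | zero => simp
  | succ k ih =>
    rw [sum_range_succ, ih, sum_range_succ (fun i => n.choose i) (k + 1),
      sum_range_succ (fun i => n.choose i) k, Nat.choose_succ_succ' n k]
    ring

end Pool.Agent.Lib.MP_da15bd_co
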